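import Mathlib

/-!
# The permanental Q-polynomial is not a complete graph invariant (MP_5909b9_co)

There is a graph on eight vertices which is not isomorphic to its complement and has the same
Q-polynomial as its complement.
-/

set_option autoImplicit false

namespace Pool.Agent.Results.MP_5909b9_co.ComplementaryPair

open Finset MvPolynomial

open Classical in
/-- The permanental polynomial `P(G; x, λ, μ) = per (x I + λ A + μ (J - I - A))` of a graph on `n`
vertices with adjacency matrix `A`; `x`, `λ`, `μ` are the variables `X 0`, `X 1`, `X 2`, and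
`Matrix.of fun _ _ => 1` is the all-ones matrix `J`. -/
noncomputable def P {n : ℕ} (G : SimpleGraph (Fin n)) : MvPolynomial (Fin 3) ℚ :=
  Matrix.permanent
    ((X 0 : MvPolynomial (Fin 3) ℚ) • (1 : Matrix (Fin n) (Fin n) (MvPolynomial (Fin 3) ℚ)) +
      (X 1 : MvPolynomial (Fin 3) ℚ) • G.adjMatrix (MvPolynomial (Fin 3) ℚ) +
      (X 2 : MvPolynomial (Fin 3) ℚ) • (Matrix.of (fun _ _ => 1) - 1 -
        G.adjMatrix (MvPolynomial (Fin 3) ℚ)))

/-- The linear operator `ω`, which sends every monomial `x^a λ^b μ^r` to `x^a λ^b μ^r / r!`. -/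
noncomputable def omega (p : MvPolynomial (Fin 3) ℚ) : MvPolynomial (Fin 3) ℚ :=
  ∑ s ∈ p.support, monomial s (p.coeff s / ((s 2).factorial : ℚ))

/-- The Q-polynomial `Q(G; x, λ, μ) = ω P(G; x + μ, λ + μ, μ)`. -/
noncomputable def Q {n : ℕ} (G : SimpleGraph (Fin n)) : MvPolynomial (Fin 3) ℚ :=
  omega (aeval ![X 0 + X 2, X 1 + X 2, X 2] (P G))

open Classical in
/-- The second formula of the problem: `Q(G) = ω per (x I + λ A + μ J)`. -/
theorem Q_eq {n : ℕ} (G : SimpleGraph (Fin n)) : Q G = omega (Matrix.permanent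
    ((X 0 : MvPolynomial (Fin 3) ℚ) • (1 : Matrix (Fin n) (Fin n) (MvPolynomial (Fin 3) ℚ)) +
      (X 1 : MvPolynomial (Fin 3) ℚ) • G.adjMatrix (MvPolynomial (Fin 3) ℚ) +
      (X 2 : MvPolynomial (Fin 3) ℚ) • Matrix.of (fun _ _ => 1))) := by
  unfold Q P Matrix.permanent
  congr 1
  rw [map_sum]
  apply Finset.sum_congr rfl
  intro σ _
  rw [map_prod]
  apply Finset.prod_congr rfl
  intro i _
  simp only [Matrix.add_apply, Matrix.smul_apply, Matrix.sub_apply, Matrix.of_apply,
    SimpleGraph.adjMatrix_apply, Matrix.one_apply, smul_eq_mul, map_add, map_mul, map_sub,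
    aeval_X, map_one]
  have h0 : (![X 0 + X 2, X 1 + X 2, X 2] : Fin 3 → MvPolynomial (Fin 3) ℚ) 0 = X 0 + X 2 := rfl
  have h1 : (![X 0 + X 2, X 1 + X 2, X 2] : Fin 3 → MvPolynomial (Fin 3) ℚ) 1 = X 1 + X 2 := rfl
  have h2 : (![X 0 + X 2, X 1 + X 2, X 2] : Fin 3 → MvPolynomial (Fin 3) ℚ) 2 = X 2 := rfl
  rw [h0, h1, h2]
  split_ifs <;> simp only [map_one, map_zero] <;> ring

/-! ### Permanents as sums over injective functions -/

section Perm

variable {α R : Type*} [Fintype α] [DecidableEq α] [CommSemiring R]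

/-- the sum over the injective functions with values in `S` -/
def T (k : ℕ) (M : Fin k → α → R) (S : Finset α) : R :=
  ∑ f : Fin k → α, if Function.Injective f ∧ ∀ i, f i ∈ S then ∏ i, M i (f i) else 0

theorem T_zero (M : Fin 0 → α → R) (S : Finset α) : T 0 M S = 1 := by
  unfold T
  have h : ∀ f : Fin 0 → α, Function.Injective f ∧ ∀ i, f i ∈ S := fun f =>
    ⟨fun i => i.elim0, fun i => i.elim0⟩
  simp [h]

theorem T_succ (k : ℕ) (M : Fin (k + 1) → α → R) (S : Finset α) :
    T (k + 1) M S = ∑ a ∈ S, M 0 a * T k (fun i => M i.succ) (S.erase a) := by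
  unfold T
  rw [← (Fin.consEquiv (fun _ => α)).sum_comp, Fintype.sum_prod_type]
  rw [← Finset.sum_subset (Finset.subset_univ S)]
  · apply Finset.sum_congr rfl
    intro a ha
    rw [Finset.mul_sum]
    apply Finset.sum_congr rfl
    intro f _
    have hc : (Function.Injective (Fin.cons a f : Fin (k + 1) → α) ∧
        ∀ i, (Fin.cons a f : Fin (k + 1) → α) i ∈ S) ↔
        (Function.Injective f ∧ ∀ i, f i ∈ S.erase a) := by
      rw [Fin.cons_injective_iff]
      constructor
      · rintro ⟨⟨h1, h2⟩, h3⟩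
        refine ⟨h2, fun i => Finset.mem_erase.2 ⟨?_, ?_⟩⟩
        · intro h; exact h1 ⟨i, h⟩
        · have := h3 i.succ
          rwa [Fin.cons_succ] at this
      · rintro ⟨h1, h2⟩
        refine ⟨⟨?_, h1⟩, ?_⟩
        · rintro ⟨i, h⟩
          exact (Finset.mem_erase.1 (h2 i)).1 h
        · intro i
          refine Fin.cases ?_ (fun j => ?_) i
          · rw [Fin.cons_zero]; exact ha
          · rw [Fin.cons_succ]; exact (Finset.mem_erase.1 (h2 j)).2
    show (if (Function.Injective (Fin.cons a f : Fin (k + 1) → α) ∧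
        ∀ i, (Fin.cons a f : Fin (k + 1) → α) i ∈ S) then
          ∏ i, M i ((Fin.cons a f : Fin (k + 1) → α) i) else 0) = _
    by_cases h : Function.Injective f ∧ ∀ i, f i ∈ S.erase a
    · rw [if_pos (hc.2 h), if_pos h, Fin.prod_univ_succ]
      simp only [Fin.cons_zero, Fin.cons_succ]
    · rw [if_neg (fun h' => h (hc.1 h')), if_neg h, mul_zero]
  · intro a _ ha
    apply Finset.sum_eq_zero
    intro f _
    apply if_neg
    rintro ⟨-, h⟩
    have := h 0
    exact ha this

/-- the permanent by expansion along the rows -/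
def perL : List (α → R) → List α → R
  | [], _ => 1
  | r :: rs, l => (l.map fun a => r a * perL rs (l.erase a)).sum

theorem T_eq_perL (k : ℕ) : ∀ (M : Fin k → α → R) (l : List α), l.Nodup →
    T k M l.toFinset = perL (List.ofFn M) l := by
  induction k with
  | zero => intro M l _; rw [T_zero]; simp [perL]
  | succ k ih =>
    intro M l hl
    rw [T_succ, List.ofFn_succ, perL, ← List.sum_toFinset _ hl]
    apply Finset.sum_congr rfl
    intro a _
    have h : l.toFinset.erase a = (l.erase a).toFinset := by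
      ext b
      rw [Finset.mem_erase, List.mem_toFinset, List.mem_toFinset, hl.mem_erase_iff]
    rw [h, ih _ _ (hl.erase a)]

theorem permanent_eq {n : ℕ} (M : Matrix (Fin n) (Fin n) R) :
    M.permanent = perL (List.ofFn fun i a => M a i) (List.finRange n) := by
  rw [← T_eq_perL _ _ _ (List.nodup_finRange n)]
  unfold Matrix.permanent T
  rw [← Finset.sum_filter]
  refine Finset.sum_bij (fun σ _ => ⇑σ) ?_ ?_ ?_ ?_
  · intro σ _
    simp [σ.injective]
  · intro σ _ τ _ h
    exact DFunLike.coe_injective h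
  · intro f hf
    rw [Finset.mem_filter] at hf
    exact ⟨Equiv.ofBijective f (Finite.injective_iff_bijective.1 hf.2.1), Finset.mem_univ _, rfl⟩
  · intro σ _
    rfl

end Perm

/-! ### Digits -/

theorem digits (B : ℕ) (K : ℕ) : ∀ (a b : ℕ → ℕ), (∀ k, a k < B) → (∀ k, b k < B) →
    ∑ k ∈ range K, a k * B ^ k = ∑ k ∈ range K, b k * B ^ k → ∀ k < K, a k = b k := by
  induction K with
  | zero => intro a b _ _ _ k hk; omega
  | succ K ih =>
    intro a b ha hb h
    have e : ∀ c : ℕ → ℕ, ∑ k ∈ range (K + 1), c k * B ^ k =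
        c 0 + B * ∑ k ∈ range K, c (k + 1) * B ^ k := by
      intro c
      rw [Finset.sum_range_succ', pow_zero, mul_one, add_comm, Finset.mul_sum]
      congr 1
      apply Finset.sum_congr rfl
      intro k _
      rw [pow_succ]; ring
    rw [e a, e b] at h
    have hB : 0 < B := lt_of_le_of_lt (Nat.zero_le _) (ha 0)
    have h0 : a 0 = b 0 := by
      have := congrArg (· % B) h
      simpa [Nat.add_mul_mod_self_left, Nat.mod_eq_of_lt (ha 0), Nat.mod_eq_of_lt (hb 0)] using this
    have h1 : ∑ k ∈ range K, a (k + 1) * B ^ k = ∑ k ∈ range K, b (k + 1) * B ^ k := by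
      rw [h0] at h
      exact Nat.eq_of_mul_eq_mul_left hB (Nat.add_left_cancel h)
    intro k hk
    rcases k with _ | k
    · exact h0
    · exact ih (fun k => a (k + 1)) (fun k => b (k + 1)) (fun k => ha _) (fun k => hb _) h1 k
        (by omega)

/-! ### From one numerical permanent to all of them -/

/-- the number of entries of each kind on the graph of a permutation -/
def cnt (c : Fin 8 → Fin 8 → Fin 3) (t : Fin 3) (σ : Equiv.Perm (Fin 8)) : ℕ :=
  (univ.filter fun i => c (σ i) i = t).card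

theorem cnt_sum (c : Fin 8 → Fin 8 → Fin 3) (σ : Equiv.Perm (Fin 8)) :
    cnt c 0 σ + cnt c 1 σ + cnt c 2 σ = 8 := by
  have h := Finset.card_eq_sum_card_fiberwise (f := fun i => c (σ i) i)
    (s := (univ : Finset (Fin 8))) (t := (univ : Finset (Fin 3))) (fun _ _ => by simp)
  rw [Fin.sum_univ_three] at h
  simpa [cnt] using h.symm

theorem prod_eq {R : Type*} [CommSemiring R] (c : Fin 8 → Fin 8 → Fin 3) (v : Fin 3 → R)
    (σ : Equiv.Perm (Fin 8)) :
    ∏ i, v (c (σ i) i) = v 0 ^ cnt c 0 σ * v 1 ^ cnt c 1 σ * v 2 ^ cnt c 2 σ := by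
  have h := Finset.prod_fiberwise_of_maps_to (g := fun i => c (σ i) i)
    (s := (univ : Finset (Fin 8))) (t := (univ : Finset (Fin 3))) (fun _ _ => Finset.mem_univ _)
    (fun i => v (c (σ i) i))
  rw [← h, Fin.prod_univ_three]
  have e : ∀ t : Fin 3, ∏ i ∈ univ.filter (fun i => c (σ i) i = t), v (c (σ i) i) =
      v t ^ cnt c t σ := by
    intro t
    rw [cnt, ← Finset.prod_const]
    apply Finset.prod_congr rfl
    intro i hi
    rw [(Finset.mem_filter.1 hi).2]
  rw [e, e, e]

/-- the code of the exponents -/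
def key (c : Fin 8 → Fin 8 → Fin 3) (σ : Equiv.Perm (Fin 8)) : ℕ := 9 * cnt c 0 σ + cnt c 1 σ

/-- the numbers of permutations with given code -/
def num (c : Fin 8 → Fin 8 → Fin 3) (k : ℕ) : ℕ :=
  (univ.filter fun σ : Equiv.Perm (Fin 8) => key c σ = k).card

theorem key_lt (c : Fin 8 → Fin 8 → Fin 3) (σ : Equiv.Perm (Fin 8)) : key c σ < 81 := by
  have := cnt_sum c σ
  unfold key; omega

theorem num_lt (c : Fin 8 → Fin 8 → Fin 3) (k : ℕ) : num c k < 2 ^ 16 := by
  refine lt_of_le_of_lt (Finset.card_filter_le _ _) ?_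
  rw [Finset.card_univ, Fintype.card_perm, Fintype.card_fin]
  decide

theorem sum_key {R : Type*} [CommSemiring R] (c : Fin 8 → Fin 8 → Fin 3) (F : ℕ → R) :
    ∑ σ : Equiv.Perm (Fin 8), F (key c σ) = ∑ k ∈ range 81, (num c k : R) * F k := by
  rw [← Finset.sum_fiberwise_of_maps_to (g := key c) (s := univ) (t := range 81)
    (fun σ _ => Finset.mem_range.2 (key_lt c σ))]
  apply Finset.sum_congr rfl
  intro k _
  rw [num, ← nsmul_eq_mul, ← Finset.sum_const]
  apply Finset.sum_congr rfl
  intro σ hσ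
  rw [(Finset.mem_filter.1 hσ).2]

theorem permanent_key {R : Type*} [CommSemiring R] (c : Fin 8 → Fin 8 → Fin 3) (v : Fin 3 → R) :
    Matrix.permanent (Matrix.of fun i j => v (c i j)) =
      ∑ k ∈ range 81, (num c k : R) * (v 0 ^ (k / 9) * v 1 ^ (k % 9) * v 2 ^ (8 - k / 9 - k % 9)) := by
  rw [← sum_key]
  unfold Matrix.permanent
  apply Finset.sum_congr rfl
  intro σ _
  have h1 := cnt_sum c σ
  have e1 : key c σ / 9 = cnt c 0 σ := by unfold key; omega
  have e2 : key c σ % 9 = cnt c 1 σ := by unfold key; omega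
  rw [e1, e2]
  have e3 : 8 - cnt c 0 σ - cnt c 1 σ = cnt c 2 σ := by omega
  rw [e3, ← prod_eq]
  rfl

/-- the numerical weights -/
def wt : Fin 3 → ℕ := ![2 ^ 144, 2 ^ 16, 1]

theorem permanent_wt (c : Fin 8 → Fin 8 → Fin 3) :
    Matrix.permanent (Matrix.of fun i j => wt (c i j)) =
      ∑ k ∈ range 81, num c k * (2 ^ 16) ^ k := by
  rw [permanent_key]
  apply Finset.sum_congr rfl
  intro k _
  have h : wt 0 ^ (k / 9) * wt 1 ^ (k % 9) * wt 2 ^ (8 - k / 9 - k % 9) = (2 ^ 16) ^ k := by
    show (2 ^ 144) ^ (k / 9) * (2 ^ 16) ^ (k % 9) * 1 ^ (8 - k / 9 - k % 9) = (2 ^ 16) ^ k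
    rw [one_pow, mul_one, ← pow_mul, ← pow_mul, ← pow_mul, ← pow_add]
    congr 1
    omega
  rw [h, Nat.cast_id]

theorem permanent_all {c d : Fin 8 → Fin 8 → Fin 3}
    (h : Matrix.permanent (Matrix.of fun i j => wt (c i j)) =
      Matrix.permanent (Matrix.of fun i j => wt (d i j)))
    {R : Type*} [CommSemiring R] (v : Fin 3 → R) :
    Matrix.permanent (Matrix.of fun i j => v (c i j)) =
      Matrix.permanent (Matrix.of fun i j => v (d i j)) := by
  rw [permanent_wt, permanent_wt] at h
  have hn := digits (2 ^ 16) 81 (num c) (num d) (num_lt c) (num_lt d) h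
  rw [permanent_key, permanent_key]
  apply Finset.sum_congr rfl
  intro k hk
  rw [hn k (Finset.mem_range.1 hk)]

/-! ### The graph -/

/-- the neighbourhoods, as binary numbers -/
def mask (i : Fin 8) : ℕ := ![104, 240, 224, 129, 130, 71, 167, 94] i

/-- The graph on `{0, …, 7}`. -/
def G : SimpleGraph (Fin 8) where
  Adj i j := (mask i).testBit j = true
  symm := ⟨by decide⟩
  loopless := ⟨by decide⟩

instance : DecidableRel G.Adj := fun i j => inferInstanceAs (Decidable ((mask i).testBit j = true))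

/-- kind of an entry -/
def kind (H : SimpleGraph (Fin 8)) [DecidableRel H.Adj] (i j : Fin 8) : Fin 3 :=
  if i = j then 0 else if H.Adj i j then 1 else 2

theorem P_eq (H : SimpleGraph (Fin 8)) [DecidableRel H.Adj] :
    P H = Matrix.permanent (Matrix.of fun i j =>
      (![X 0, X 1, X 2] : Fin 3 → MvPolynomial (Fin 3) ℚ) (kind H i j)) := by
  classical
  unfold P
  congr 1
  ext1 i j
  simp only [Matrix.add_apply, Matrix.smul_apply, Matrix.sub_apply, Matrix.of_apply,
    SimpleGraph.adjMatrix_apply, Matrix.one_apply, smul_eq_mul, kind]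
  by_cases hij : i = j
  · subst hij
    simp
  · by_cases ha : H.Adj i j
    · simp [hij, ha]
    · simp [hij, ha]

theorem numeric : Matrix.permanent (Matrix.of fun i j => wt (kind G i j)) =
    Matrix.permanent (Matrix.of fun i j => wt (kind Gᶜ i j)) := by
  rw [permanent_eq, permanent_eq]
  decide +kernel

theorem P_compl : P G = P Gᶜ := by
  rw [P_eq, P_eq]
  exact permanent_all numeric _

theorem not_iso : ¬ Nonempty (G ≃g Gᶜ) := by
  rintro ⟨e⟩
  have h1 : ¬ ∃ v : Fin 8, (univ.filter fun u => G.Adj v u).card = 2 ∧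
      ∀ u, G.Adj v u → (univ.filter fun w => G.Adj u w).card = 5 := by decide
  have h2 : ∃ v : Fin 8, (univ.filter fun u => Gᶜ.Adj v u).card = 2 ∧
      ∀ u, Gᶜ.Adj v u → (univ.filter fun w => Gᶜ.Adj u w).card = 5 := by decide
  have hc : ∀ v : Fin 8, (univ.filter fun u => G.Adj v u).card =
      (univ.filter fun u => Gᶜ.Adj (e v) u).card := by
    intro v
    apply Finset.card_bij (fun u _ => e u)
    · intro u hu
      rw [Finset.mem_filter] at hu ⊢
      exact ⟨Finset.mem_univ _, e.map_adj_iff.2 hu.2⟩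
    · intro a _ b _ hab
      exact e.injective hab
    · intro b hb
      rw [Finset.mem_filter] at hb
      refine ⟨e.symm b, ?_, by simp⟩
      rw [Finset.mem_filter]
      refine ⟨Finset.mem_univ _, ?_⟩
      rw [← e.map_adj_iff]
      simpa using hb.2
  obtain ⟨v, hv1, hv2⟩ := h2
  apply h1
  refine ⟨e.symm v, ?_, ?_⟩
  · rw [hc, e.apply_symm_apply]; exact hv1
  · intro u hu
    rw [hc]
    apply hv2
    have := e.map_adj_iff.2 hu
    rwa [e.apply_symm_apply] at this

/-- There is a graph on eight vertices that is not isomorphic to its complement `H`, while both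
graphs have the same Q-polynomial and the same polynomial `P`. So the Q-polynomial is not a
complete graph invariant. -/
theorem result : ∃ G H : SimpleGraph (Fin 8),
    H = Gᶜ ∧ ¬ Nonempty (G ≃g H) ∧ Q G = Q H ∧ P G = P H :=
  ⟨G, Gᶜ, rfl, not_iso, by unfold Q; rw [P_compl], P_compl⟩

end Pool.Agent.Results.MP_5909b9_co.ComplementaryPair
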